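import Mathlib
import Pool.Agent.Y638.RF.NetTri

/-!
# Triangle detection: nondeterministic networks which test real formulas

The input is a list of the `m` edges of a simple graph on `2 m` vertices; the question is whether the
graph has a triangle.

A real formula (`Fml`) is built from real constants, arbitrary real functions of one entry of the
list, and arbitrary real functions of `w` words of length `c log₂ m`, where each word is an arbitrary
function of one entry, by sums, products, sign tests `pos`, and gates `sym` of any fan-in whose value
is an arbitrary real function of the number of positive inputs. A network (`Net`) is a nondeterministic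
branching program, possibly with cycles: nodes, free edges, and edges which are guarded by real
formulas; it accepts if some path leads from the start node to the end node over edges which are open.
Nodes and free edges are not counted.

We show that random networks (Arthur-Merlin type: first the random choice, then the guesses) of size
at most `s` which accept the graphs with a triangle, or which accept the graphs without triangles, with
error probability at most `1 / 3`, need `m ^ 2 ≤ 3000 w (√m + 350 c w) s`, that is, size of order
`m ^ (3 / 2)`.

Proof. By the coding of helper457 (`Pool.Agent.TH457.Ary.Tri`) each entry of the list can ask for about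
`m log₂ m / 4` bits which are encoded in the other entries. If a network has `r` leaves which see the
entry, then the reachability between the end points of the `r` edges gives `2 ^ O (r ^ 2)`
possibilities, and the formulas on these edges take `2 ^ O (r log m)` different functions of the entry
(Warren's bound, `Pool.Agent.Y638.RF.Core`).
-/

set_option autoImplicit false

namespace Pool.Agent.Results.MP_ad5e8e_lc.RealNetworks

open Pool.Agent.TH697.Form (IsProb)
open Pool.Agent.TH697.Row (ApproximatesOn)
open Pool.Agent.TH457.Ary.Tri (Edge Simple triangle)
open Pool.Agent.Y638.RF (Net)

theorem result : ∀ m c w : ℕ, 1000 ≤ m → 1 ≤ c → 1 ≤ w →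
    ∀ (Ω : Type) [Fintype Ω] (μ : Ω → ℝ), IsProb μ →
      ∀ (s : ℕ) (N : Ω → Net (Fin m) (fun _ => Edge (2 * m)) w (m ^ c)),
        (∀ ω, (N ω).size ≤ s) →
        (ApproximatesOn μ (fun ω => (N ω).eval) Simple triangle ∨
          ApproximatesOn μ (fun ω x => !(N ω).eval x) Simple triangle) →
        (m : ℝ) ^ 2 ≤ 3000 * w * (√m + 350 * c * w) * s :=
  fun _ _ _ hm hc hw _ _ μ hμ s N hs hN =>
    Pool.Agent.Y638.RF.Tri.net_bound' hm hc hw μ hμ s N hs hN

end Pool.Agent.Results.MP_ad5e8e_lc.RealNetworks
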