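import Mathlib
import Pool.Agent.Y638.RF.Tri

/-!
# Triangle detection: branching programs which test real formulas

The input is a list of the `m` edges of a simple graph on `2 m` vertices; the question is whether the
graph has a triangle.

A real formula (`Fml`) is built from real constants, arbitrary real functions of one entry of the
list, and arbitrary real functions of `w` words of length `c log₂ m`, where each word is an arbitrary
function of one entry, by sums, products, sign tests `pos` (with the values `0`, `1`), and gates `sym`
of any fan-in whose value is an arbitrary real function of the number of positive inputs. So it may
contain threshold gates of unbounded fan-in with arbitrary real weights, gates which test the sign of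
arithmetic formulas (for instance numbers of triangles), and arbitrary symmetric gates, nested in any
way. It accepts if its value is positive. Its size is the number of leaves (constants are free) plus
the number of wires which lead to gates `sym`. In a branching program (`Program`) every inner node
tests whether a real formula accepts; its size is the number of inner nodes plus the sizes of all
these formulas. A formula is a program with one inner node.

We show that random branching programs of size at most `s` with error probability at most `1 / 3` need
`m ^ 2 ≤ 6100 c w ^ 2 s`.

Proof. By the coding of helper457 (`Pool.Agent.TH457.Ary.Tri`) each entry of the list can ask for about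
`m log₂ m / 4` bits which are encoded in the other entries. We count the functions of this entry which
arise when the other entries are fixed: between the `r` leaves which see the entry there are `O (r)`
places at which other parts of the formula enter, the function of the value below such a place is
affine or an affine function of a threshold test, and the number of sign patterns is bounded by
Warren's theorem (`Pool.Agent.Y638.RF.Core`).
-/

set_option autoImplicit false

namespace Pool.Agent.Results.MP_ad5e8e_lc.RealPrograms

open Pool.Agent.TH697.Form (IsProb)
open Pool.Agent.TH697.Row (ApproximatesOn)
open Pool.Agent.TH457.Ary.Tri (Edge Simple triangle)
open Pool.Agent.Y638.RF (Program)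

theorem result : ∀ m c w : ℕ, 1000 ≤ m → 1 ≤ c → 1 ≤ w →
    ∀ (Ω : Type) [Fintype Ω] (μ : Ω → ℝ), IsProb μ →
      ∀ (s : ℕ) (B : Ω → Program (Fin m) (fun _ => Edge (2 * m)) w (m ^ c) s),
        ApproximatesOn μ (fun ω => (B ω).eval) Simple triangle →
        (m : ℝ) ^ 2 ≤ 6100 * c * w ^ 2 * s :=
  fun _ _ _ hm hc hw _ _ μ hμ s B hB =>
    Pool.Agent.Y638.RF.Tri.program_bound hm hc hw μ hμ s B hB

end Pool.Agent.Results.MP_ad5e8e_lc.RealPrograms
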