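import Pool.Agent.Y631.WcSup

/-!
# Triangle detection by word circuits: number of reads and treewidth

The input is the list of the `m` edges of a simple graph with `n` vertices, as in the word RAM model:
each item of the list is a pair of vertices. We consider straight-line programs for such inputs
(`WCirc`): there are `C.size` gates, each of them holds a word (an element of a finite set `Z`, for
instance the words of `w` bits), and computes an ARBITRARY function of at most `κ` items and words of
earlier gates. The relevant parameters are

* the number of reads `C.reads`: the number of wires from items to gates; this is a lower bound for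
  the running time,
* the treewidth `θ` of the graph of the gates (whose edges are the wires between gates). It is at
  most `κ + 1` times the number of registers, since a program with `S` registers has pathwidth
  `O (κ S)` (not proved here), but a circuit of small treewidth may use arbitrarily many words at
  the same time.

**Result.** If a circuit with `C.reads ≤ r m` decides whether a simple graph with `m` edges has a
triangle, and the words (and the `m` items) fit in `w` bits, then

`m ^ (m / 2 ^ (24 r + 1)) ≤ 2 ^ (w · 10000 r² (κ + 1) (θ + 1)) + 1`.

So, if `w = O (log m)` and `κ` is constant, the treewidth is at least `m / 2 ^ (25 r + O (1))`; in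
other words: with treewidth at most `m ^ (1 - ε)` one needs `Ω (ε m log m)` reads, a superlinear
number. For nondeterministic circuits that accept exactly the triangle-free graphs (the circuits for
the other answer are trivial: guess the triangle) the same holds with `2` instead of the first `m`, so
the treewidth is at least `m / (w 2 ^ (25 r + O (1)))`.

**Proof.** The circuit is cut into `O (r²)` parts with few reads in each of them by the removal of
`O (r² (θ + 1))` gates. By averaging there are sets `A` and `E` of `m / 2 ^ O (r)` places of the list
and a division of the parts into two sides such that the places in `A` are read on the first side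
only, and those of `E` on the second side only. The `j`-th place of `A` gets an edge `u_j w_a`, the
`j`-th place of `E` an edge `v_j w_b`, and other places the edges `u_j v_j`; so there is a triangle
iff `a_j = b_j` for some `j`. For fixed values of the removed gates (and of those they are joined to)
the accepted inputs form a combinatorial rectangle, and a fooling set, or the rank of the `k`-th
tensor power of the matrix with the entries `[a ≠ b]`, gives the bounds.
-/

set_option autoImplicit false

namespace Pool.Agent.Results.MP_ad5e8e_lc.TreewidthTimesReads

open Pool.Agent.Y631.Wc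

/-- Let `C` be a word circuit for lists of `m` edges of graphs with `n ≥ q + 3 m` vertices, whose
gates have fan-in at most `κ` and values in `Z`, with at most `r m` reads, and of treewidth at most
`θ`. Let `2 ≤ q ≤ L` and `|Z| ≤ L`.

1. If `C` (nondeterministic) accepts exactly the triangle-free graphs then
   `2 ^ (m / 2 ^ (24 r + 1)) ≤ L ^ (10000 r² (κ + 1) (θ + 1))`.
2. If `C` has at most one accepting computation for each input (which holds if the gates compute
   functions, `Deterministic.unambiguous`) and accepts exactly the triangle-free graphs then
   `q ^ (m / 2 ^ (24 r + 1)) ≤ L ^ (10000 r² (κ + 1) (θ + 1))`.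
3. If `C` has at most one accepting computation for each input and accepts exactly the graphs with a
   triangle then `q ^ (m / 2 ^ (24 r + 1)) ≤ L ^ (10000 r² (κ + 1) (θ + 1)) + 1`.

The circuit has to be correct only for lists that describe simple graphs (`IsGraph n`).

In particular (4.): for all `c`, `κ` and `0 < ε ≤ 1`, for all large `m`, each deterministic (or
unambiguous) circuit of fan-in `κ` whose gates have at most `m ^ c` values (words of `c log m` bits),
of treewidth at most `m ^ (1 - ε)`, which decides whether graphs with `m` edges and `n ≥ 4 m`
vertices have a triangle (as the answer 1 or 0), has at least `(ε / 30) m log₂ m` reads. -/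
theorem result :
    (∀ {r κ θ m n q L : ℕ} (_ : 1 ≤ r) (_ : 2 ≤ q) (_ : q ≤ L) (_ : q + 3 * m ≤ n)
      {Z : Type} [Fintype Z] (_ : Fintype.card Z ≤ L) (C : WCirc (Fin m) (ℕ × ℕ) Z)
      (_ : C.FanIn κ) (_ : C.TreewidthLE θ) (_ : C.reads ≤ r * m),
      ((∀ x, IsGraph n x → (C.Accepts x ↔ ¬ HasTriangle x)) →
        2 ^ (m / 2 ^ (24 * r + 1)) ≤ L ^ (10000 * r ^ 2 * (κ + 1) * (θ + 1))) ∧
      (C.Unambiguous → (∀ x, IsGraph n x → (C.Accepts x ↔ ¬ HasTriangle x)) →
        q ^ (m / 2 ^ (24 * r + 1)) ≤ L ^ (10000 * r ^ 2 * (κ + 1) * (θ + 1))) ∧
      (C.Unambiguous → (∀ x, IsGraph n x → (C.Accepts x ↔ HasTriangle x)) →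
        q ^ (m / 2 ^ (24 * r + 1)) ≤ L ^ (10000 * r ^ 2 * (κ + 1) * (θ + 1)) + 1)) ∧
    ∀ (c κ : ℕ) (ε : ℝ), 0 < ε → ε ≤ 1 → ∃ m₀ : ℕ, ∀ m ≥ m₀, ∀ n ≥ 4 * m, ∀ (Z : Type)
      [Fintype Z], Fintype.card Z ≤ m ^ c → ∀ (C : WCirc (Fin m) (ℕ × ℕ) Z) (θ : ℕ), C.FanIn κ →
        C.TreewidthLE θ → (θ : ℝ) ≤ (m : ℝ) ^ (1 - ε) → C.Unambiguous →
        ((∀ x, IsGraph n x → (C.Accepts x ↔ HasTriangle x)) ∨
          (∀ x, IsGraph n x → (C.Accepts x ↔ ¬ HasTriangle x))) →
        ε / 30 * (m * Real.logb 2 m) ≤ C.reads :=
  ⟨fun hr hq hqL hn _ _ hZ C hκ hθ hR => tri_bounds hr hq hqL hn hZ C hκ hθ hR, tri_superlinear⟩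

end Pool.Agent.Results.MP_ad5e8e_lc.TreewidthTimesReads
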